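import Pool.Agent.P8H39.TI.Stm5
import Pool.Agent.P8H46.TI.Star

/-!
# Project TI, package STAR5

The beginning is adapted from `star_one` of helper46 (`Pool.Agent.P8H46.TI.Star`).
-/

set_option autoImplicit false

namespace Pool.Agent.P8H26.TI

open Finset Pool.Agent.P8H39.TI
open Pool.Agent.P8H46.TI (asc_real)

lemma star5 (hC : S_CHU) (t κ N : ℕ) (hκ : 3 ≤ κ) (hN : (t + 1) * (κ - 1) + 1 ≤ N) :
    (κ : ℝ) * ((t : ℝ) + 1) * ((N : ℝ) + κ + (t + 1) + 1) * ((N + κ + t).descFactorial t : ℝ) ≤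
      (1 + 2 * TT (t + 1) 1 κ N) * ((N + (t + 1)).descFactorial (t + 1 + 1) : ℝ) := by
  obtain ⟨G, hG⟩ : ∃ G : ℝ, G = ∏ u ∈ range (t + 1), ((N : ℝ) + κ + u) / ((N : ℝ) + u) := ⟨_, rfl⟩
  have hTT : 1 + TT (t + 1) 1 κ N = G := by
    rw [hG, ← hC.1 (t + 1) κ N (by omega), sum_range_succ', TT, add_comm]
    congr 1
    · refine sum_congr rfl fun a _ => ?_
      have e1 : 1 + a - 1 = a := by omega
      have e2 : t + 1 + 1 - 1 = t + 1 := by omega
      have e3 : (N + a).descFactorial (1 + a) = N.ascFactorial (a + 1) := by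
        rw [← Nat.add_descFactorial_eq_ascFactorial', add_comm 1 a]
        rfl
      rw [e1, e2, e3, Nat.choose_self, add_comm 1 a]
      simp
    · simp
  have hTT2 : 1 + 2 * TT (t + 1) 1 κ N = 2 * G - 1 := by linear_combination 2 * hTT
  obtain ⟨k', rfl⟩ : ∃ k', κ = k' + 3 := ⟨κ - 3, by omega⟩
  obtain ⟨d, hNd⟩ : ∃ d, N = (t + 1) * (k' + 2) + 1 + d := ⟨N - ((t + 1) * (k' + 2) + 1), by
    have : (t + 1) * (k' + 3 - 1) = (t + 1) * (k' + 2) := rfl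
    omega⟩
  have hNr : (N : ℝ) = ((t : ℝ) + 1) * (k' + 2) + 1 + d := by
    rw [hNd]
    push_cast
    ring
  have hNpos : (0 : ℝ) < N := by
    rw [hNr]
    positivity
  have e1 : (N + (t + 1)).descFactorial (t + 1 + 1) = N.ascFactorial (t + 1 + 1) :=
    Nat.add_descFactorial_eq_ascFactorial' N (t + 1 + 1)
  have e2 : (N + (k' + 3) + t).descFactorial t = (N + (k' + 3) + 1).ascFactorial t :=
    Nat.add_descFactorial_eq_ascFactorial _ _
  rw [hTT2, e1, e2, asc_real, asc_real, prod_range_succ _ (t + 1)]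
  obtain ⟨P, hP⟩ : ∃ P : ℝ, P = ∏ u ∈ range (t + 1), ((N : ℝ) + u) := ⟨_, rfl⟩
  have hP0 : 0 < P := by rw [hP]; exact prod_pos fun u _ => by positivity
  have e3 : (∏ u ∈ range (t + 1), ((N : ℝ) + ((k' + 3 : ℕ) : ℝ) + u)) =
      (∏ i ∈ range t, (((N + (k' + 3) + 1 : ℕ) : ℝ) + i)) * ((N : ℝ) + ((k' + 3 : ℕ) : ℝ)) := by
    rw [prod_range_succ', Nat.cast_zero, add_zero]
    congr 1
    refine prod_congr rfl fun i _ => ?_
    push_cast
    ring
  obtain ⟨Q, hQ⟩ : ∃ Q : ℝ, Q = ∏ i ∈ range t, (((N + (k' + 3) + 1 : ℕ) : ℝ) + i) := ⟨_, rfl⟩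
  have hQ0 : 0 ≤ Q := by rw [hQ]; exact prod_nonneg fun i _ => by positivity
  have hGP : G * P = Q * ((N : ℝ) + ((k' + 3 : ℕ) : ℝ)) := by
    rw [hG, prod_div_distrib, e3, ← hP, ← hQ, div_mul_cancel₀ _ hP0.ne']
  rw [← hP, ← hQ]
  -- the lower bound for `G`
  have hT0 : (0 : ℝ) < (N : ℝ) + (t + 1) := by positivity
  have hGlow : 1 + ((t + 1 : ℕ) : ℝ) * (((k' + 3 : ℕ) : ℝ) / ((N : ℝ) + (t + 1))) ≤ G := by
    have h1 := one_add_mul_le_pow (a := ((k' + 3 : ℕ) : ℝ) / ((N : ℝ) + (t + 1)))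
      (by have : (0 : ℝ) ≤ ((k' + 3 : ℕ) : ℝ) / ((N : ℝ) + (t + 1)) := by positivity
          linarith) (t + 1)
    refine h1.trans ?_
    rw [hG, ← card_range (t + 1), ← prod_const, card_range]
    refine prod_le_prod (fun u _ => by positivity) fun u hu => ?_
    have hu' : (u : ℝ) ≤ (t : ℝ) + 1 := by
      have : u < t + 1 := mem_range.1 hu
      exact_mod_cast this.le
    have hNu : (0 : ℝ) < (N : ℝ) + u := by positivity
    have h2 : ((k' + 3 : ℕ) : ℝ) / ((N : ℝ) + (t + 1)) ≤ ((k' + 3 : ℕ) : ℝ) / ((N : ℝ) + u) :=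
      div_le_div_of_nonneg_left (by positivity) hNu (by linarith)
    have h3 : ((N : ℝ) + ((k' + 3 : ℕ) : ℝ) + u) / ((N : ℝ) + u) =
        1 + ((k' + 3 : ℕ) : ℝ) / ((N : ℝ) + u) := by
      field_simp
      ring
    rw [h3]
    linarith
  obtain ⟨W, hW⟩ : ∃ W : ℝ, W = (N : ℝ) + (t + 1) + (t + 1) * ((k' : ℝ) + 3) := ⟨_, rfl⟩
  have hW0 : 0 < W := by rw [hW]; positivity
  have hGW : W ≤ G * ((N : ℝ) + (t + 1)) := by
    have h1 := mul_le_mul_of_nonneg_right hGlow hT0.le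
    refine le_trans (le_of_eq ?_) h1
    rw [hW]
    push_cast
    field_simp
  have hPW : P * W ≤ Q * ((N : ℝ) + ((k' : ℝ) + 3)) * ((N : ℝ) + (t + 1)) := by
    have h1 := mul_le_mul_of_nonneg_left hGW hP0.le
    refine h1.trans (le_of_eq ?_)
    have h2 := hGP
    push_cast at h2
    linear_combination ((N : ℝ) + (t + 1)) * h2
  -- the polynomial inequality
  have key : 0 ≤ (2 * ((N : ℝ) + ((k' : ℝ) + 3)) * ((N : ℝ) + (t + 1)) -
      ((k' : ℝ) + 3) * ((t : ℝ) + 1) * ((N : ℝ) + ((k' : ℝ) + 3) + (t + 1) + 1)) * W -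
      ((N : ℝ) + (t + 1)) ^ 2 * ((N : ℝ) + ((k' : ℝ) + 3)) := by
    rw [hW, hNr]
    ring_nf
    positivity
  have key2 := mul_nonneg key hQ0
  have hPW2 := mul_le_mul_of_nonneg_right hPW hT0.le
  have hfin : ((k' : ℝ) + 3) * ((t : ℝ) + 1) * ((N : ℝ) + ((k' : ℝ) + 3) + (t + 1) + 1) * Q * W ≤
      (2 * (Q * ((N : ℝ) + ((k' : ℝ) + 3))) * ((N : ℝ) + (t + 1)) - P * ((N : ℝ) + (t + 1))) * W := by
    nlinarith [key2, hPW2]
  have hfin2 := le_of_mul_le_mul_right hfin hW0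
  refine le_trans (le_of_eq ?_) (hfin2.trans (le_of_eq ?_))
  · push_cast
    ring
  · have h2 := hGP
    push_cast at h2 ⊢
    linear_combination (-2 * ((N : ℝ) + (t + 1))) * h2

theorem t_STAR5 (hC : S_CHU) : S_STAR5 := by
  intro t κ N ht hκ hN
  obtain ⟨t', rfl⟩ : ∃ t', t = t' + 1 := ⟨t - 1, by omega⟩
  have h := star5 hC t' κ N hκ hN
  have e1 : N + κ + (t' + 1) - 1 = N + κ + t' := by omega
  have e2 : t' + 1 - 1 = t' := by omega
  rw [e1, e2]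
  push_cast
  exact h

end Pool.Agent.P8H26.TI
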